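import Pool.Agent.H65.Flat.Srf

/-! # Minimal displacement of a cocompact torsion free Fuchsian group (helper66) -/

namespace H65.Flat

open MeasureTheory Set Filter
open scoped UpperHalfPlane MatrixGroups ENNReal Topology

/-- minimal displacement -/
theorem Srf.disp_aux (S : Srf) :
    ∃ ι > 0, ∀ g ∈ S.Γ, (∃ z : ℍ, dist z (g • z) < ι) → ∀ z : ℍ, g • z = z := by
  classical
  have hdisc := S.discr
  obtain ⟨C, hC, hcov⟩ := S.cocompact
  set K : Set ℍ := Metric.cthickening 1 C with hK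
  have hKc : IsCompact K := hC.cthickening
  have hCK : C ⊆ K := Metric.self_subset_cthickening C
  have hfin : {γ : S.Γ | ((γ • ·) '' K ∩ K).Nonempty}.Finite :=
    ProperlyDiscontinuousSMul.finite_disjoint_inter_image hKc hKc
  have hne : C.Nonempty := by
    obtain ⟨g, _, hg⟩ := hcov UpperHalfPlane.I
    exact ⟨_, hg⟩
  -- positive displacement of each nontrivial element on `C`
  have hδ : ∀ γ : S.Γ, ∃ δ : ℝ, 0 < δ ∧ ((∃ z : ℍ, (γ : SL(2, ℝ)) • z ≠ z) →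
      ∀ z ∈ C, δ ≤ dist z ((γ : SL(2, ℝ)) • z)) := by
    intro γ
    by_cases h : ∃ z : ℍ, (γ : SL(2, ℝ)) • z ≠ z
    · have hcont : Continuous fun z : ℍ => dist z ((γ : SL(2, ℝ)) • z) :=
        continuous_id.dist (continuous_const_smul _)
      obtain ⟨z₀, _, hz₀⟩ := hC.exists_isMinOn hne hcont.continuousOn
      refine ⟨dist z₀ ((γ : SL(2, ℝ)) • z₀), ?_, fun _ z hz => hz₀ hz⟩
      rw [dist_pos]
      intro he
      obtain ⟨w, hw⟩ := h
      exact hw (S.free γ.1 γ.2 z₀ he.symm w)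
    · exact ⟨1, one_pos, fun h' => absurd h' h⟩
  choose δ hδ0 hδ1 using hδ
  obtain ⟨ι, hι0, hι1, hι2⟩ : ∃ ι : ℝ, 0 < ι ∧ ι ≤ 1 ∧ ∀ γ ∈ {γ : S.Γ | ((γ • ·) '' K ∩ K).Nonempty}, ι ≤ δ γ := by
    have key : ∀ s : Finset S.Γ, ∃ ι : ℝ, 0 < ι ∧ ι ≤ 1 ∧ ∀ γ ∈ s, ι ≤ δ γ := by
      intro s
      induction s using Finset.induction_on with
      | empty => exact ⟨1, one_pos, le_refl 1, by simp⟩
      | insert a s _ ih =>
        obtain ⟨ι, h0, h1, h2⟩ := ih
        refine ⟨min ι (δ a), lt_min h0 (hδ0 a), (min_le_left _ _).trans h1, ?_⟩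
        intro γ hγ
        rw [Finset.mem_insert] at hγ
        rcases hγ with rfl | hγ
        · exact min_le_right _ _
        · exact (min_le_left _ _).trans (h2 γ hγ)
    obtain ⟨ι, h0, h1, h2⟩ := key hfin.toFinset
    exact ⟨ι, h0, h1, fun γ hγ => h2 γ (hfin.mem_toFinset.2 hγ)⟩
  refine ⟨ι, hι0, ?_⟩
  rintro g hg ⟨z, hz⟩
  obtain ⟨h, hh, hhC⟩ := hcov z
  set g' : SL(2, ℝ) := h * g * h⁻¹ with hg'
  have hg'mem : g' ∈ S.Γ := S.Γ.mul_mem (S.Γ.mul_mem hh hg) (S.Γ.inv_mem hh)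
  have e1 : g' • (h • z) = h • (g • z) := by
    rw [hg', mul_smul, mul_smul, inv_smul_smul]
  have hd : dist (h • z) (g' • (h • z)) < ι := by
    rw [e1, dist_smul]; exact hz
  have hmem : (⟨g', hg'mem⟩ : S.Γ) ∈ {γ : S.Γ | ((γ • ·) '' K ∩ K).Nonempty} := by
    rw [mem_ofPred_eq]

    refine ⟨g' • (h • z), ⟨h • z, hCK hhC, rfl⟩, ?_⟩
    apply Metric.mem_cthickening_of_dist_le _ (h • z) _ _ hhC
    rw [dist_comm]
    exact hd.le.trans hι1
  have htriv : ∀ w : ℍ, g' • w = w := by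
    by_contra hc
    push Not at hc
    have := hδ1 ⟨g', hg'mem⟩ hc (h • z) hhC
    have h2 := hι2 _ hmem
    linarith
  intro w
  have h1 := htriv (h • w)
  rw [hg', mul_smul, mul_smul, inv_smul_smul] at h1
  exact MulAction.injective h h1

end H65.Flat
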