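import Pool.Agent.H65.Flat.Meas

/-! # Volume in the Fermi chart (helper66) -/

namespace H65.Flat

open MeasureTheory Set Filter

/-- volume estimate from the derivative of the chart in the frame and injectivity -/
theorem vol_chart_aux (P : Pre2) (u : T)
    (hJ : ∀ v y, 1 ≤ P.J v y)
    (hd : ∀ p : T, HasFDerivAt (Psi P.Φ u) (fderiv ℝ (Psi P.Φ u) p) p ∧
    fderiv ℝ (Psi P.Φ u) p (1, 0, 0)
      = (P.J (rot (Real.pi / 2) (P.Φ p.1 u)) p.2.1 * Real.cos p.2.2) • fieldX P.U (Psi P.Φ u p)
        - (P.J (rot (Real.pi / 2) (P.Φ p.1 u)) p.2.1 * Real.sin p.2.2) • fieldH P.U (Psi P.Φ u p)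
        - P.J1 (rot (Real.pi / 2) (P.Φ p.1 u)) p.2.1 • fieldV ∧
    fderiv ℝ (Psi P.Φ u) p (0, 1, 0)
      = Real.sin p.2.2 • fieldX P.U (Psi P.Φ u p) + Real.cos p.2.2 • fieldH P.U (Psi P.Φ u p) ∧
    fderiv ℝ (Psi P.Φ u) p (0, 0, 1) = fieldV)
    (hinj : Function.Injective (Psi P.Φ u)) (A : Set T) (hA : IsOpen A)
    (hAim : MeasurableSet (Psi P.Φ u '' A)) :
    volume A ≤ liou P.U (Psi P.Φ u '' A) := by
  unfold liou
  rw [withDensity_apply _ hAim]
  rw [lintegral_image_eq_lintegral_abs_det_fderiv_mul (volume : Measure T) hA.measurableSet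
    (fun x _ => (hd x).1.hasFDerivWithinAt) hinj.injOn]
  calc volume A = ∫⁻ _ in A, 1 ∂volume := by rw [setLIntegral_const, one_mul]
    _ ≤ _ := by
      apply setLIntegral_mono' hA.measurableSet
      intro p _
      obtain ⟨_, h1, h2, h3⟩ := hd p
      rw [← ENNReal.ofReal_mul (abs_nonneg _), ← ENNReal.ofReal_one]
      apply ENNReal.ofReal_le_ofReal
      set j := P.J (rot (Real.pi / 2) (P.Φ p.1 u)) p.2.1 with hj
      set j1 := P.J1 (rot (Real.pi / 2) (P.Φ p.1 u)) p.2.1 with hj1
      set B := fderiv ℝ (Psi P.Φ u) p with hB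
      set q := Psi P.Φ u p with hq
      have e1 : (B : T →ₗ[ℝ] T) = col (fieldX P.U q) (fieldH P.U q) fieldV ∘ₗ
          col (j * Real.cos p.2.2, -(j * Real.sin p.2.2), -j1)
            (Real.sin p.2.2, Real.cos p.2.2, 0) (0, 0, 1) := by
        apply LinearMap.ext
        intro w
        have hw : w = w.1 • ((1, 0, 0) : T) + w.2.1 • ((0, 1, 0) : T) + w.2.2 • ((0, 0, 1) : T) := by
          simp
        have e : B w = w.1 • B (1, 0, 0) + w.2.1 • B (0, 1, 0) + w.2.2 • B (0, 0, 1) := by
          conv_lhs => rw [hw]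
          simp only [map_add, map_smul]
        rw [ContinuousLinearMap.coe_coe, e, h1, h2, h3]
        simp only [LinearMap.comp_apply, col_apply]
        simp only [Prod.fst_add, Prod.snd_add, Prod.smul_fst, Prod.smul_snd, smul_eq_mul, mul_zero,
          mul_one, add_zero]
        module
      have e2 : B.det = Real.exp (q.2.1 - 2 * P.U (bp q)) * j := by
        show LinearMap.det (B : T →ₗ[ℝ] T) = _
        rw [e1, LinearMap.det_comp, det_frame, det_eq]
        simp only [col_apply]
        simp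
        linear_combination j * Real.sin_sq_add_cos_sq p.2.2
      have hj1 : 1 ≤ j := hJ _ _
      rw [e2, abs_of_pos (by positivity)]
      unfold dens
      have e3 : Real.exp (q.2.1 - 2 * P.U (bp q)) * j * Real.exp (2 * P.U (bp q) - q.2.1) =
          j * (Real.exp (q.2.1 - 2 * P.U (bp q)) * Real.exp (2 * P.U (bp q) - q.2.1)) := by ring
      rw [e3, ← Real.exp_add]
      simpa using hj1

end H65.Flat
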