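import Pool.Agent.H65.Flat.Srf

/-! # The curvature is negative at a minimum of the conformal factor (helper66) -/

namespace H65.Flat

open MeasureTheory Set Filter
open scoped UpperHalfPlane MatrixGroups ENNReal Topology

theorem deriv_deriv_nonneg_of_isLocalMin {f : ℝ → ℝ} {x₀ : ℝ} (h : IsLocalMin f x₀)
    (hc : ContinuousAt f x₀) : 0 ≤ deriv (deriv f) x₀ := by
  by_contra hneg
  push Not at hneg
  have h1 : IsLocalMax f x₀ := isLocalMax_of_deriv_deriv_neg hneg h.deriv_eq_zero hc
  have h2 : f =ᶠ[𝓝 x₀] fun _ => f x₀ := by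
    filter_upwards [h, h1] with y hy hy'
    exact le_antisymm hy' hy
  have h3 : deriv f =ᶠ[𝓝 x₀] fun _ => (0 : ℝ) := by
    have := h2.deriv
    refine this.trans (Eventually.of_forall fun y => by simp)
  rw [h3.deriv_eq] at hneg
  simp at hneg

theorem Ux_line {U : ℝ × ℝ → ℝ} (hU : Differentiable ℝ U) (x s t : ℝ) :
    HasDerivAt (fun t => U (x + t, s)) (Ux U (x + t, s)) t := by
  have h2 : HasDerivAt (fun t : ℝ => (x + t, s)) ((1 : ℝ), (0 : ℝ)) t :=
    ((hasDerivAt_id t).const_add x).prodMk (hasDerivAt_const _ _)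
  exact (hU (x + t, s)).hasFDerivAt.comp_hasDerivAt t h2

theorem Us_line {U : ℝ × ℝ → ℝ} (hU : Differentiable ℝ U) (x s t : ℝ) :
    HasDerivAt (fun t => U (x, s + t)) (Us U (x, s + t)) t := by
  have h2 : HasDerivAt (fun t : ℝ => (x, s + t)) ((0 : ℝ), (1 : ℝ)) t :=
    (hasDerivAt_const _ _).prodMk ((hasDerivAt_id t).const_add s)
  exact (hU (x, s + t)).hasFDerivAt.comp_hasDerivAt t h2

/-- at a global minimum of `U` the curvature is negative -/
theorem curv_neg_of_min {U : ℝ × ℝ → ℝ} (hU : ContDiff ℝ (⊤ : ℕ∞) U) {p : ℝ × ℝ}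
    (hmin : ∀ q, U p ≤ U q) : curv U p < 0 := by
  obtain ⟨x, s⟩ := p
  have hd : Differentiable ℝ U := hU.differentiable (by simp)
  have h1 : ContDiff ℝ (⊤ : ℕ∞) (fderiv ℝ U) := hU.fderiv_right (by simp)
  have hdx : Differentiable ℝ (Ux U) :=
    (h1.clm_apply (contDiff_const (c := ((1 : ℝ), (0 : ℝ))))).differentiable (by simp)
  have hds : Differentiable ℝ (Us U) :=
    (h1.clm_apply (contDiff_const (c := ((0 : ℝ), (1 : ℝ))))).differentiable (by simp)
  have hxx : 0 ≤ Ux (Ux U) (x, s) := by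
    have e1 : deriv (fun t => U (x + t, s)) = fun t => Ux U (x + t, s) := by
      funext t; exact (Ux_line hd x s t).deriv
    have e2 : deriv (fun t => Ux U (x + t, s)) 0 = Ux (Ux U) (x, s) := by
      have := (Ux_line hdx x s 0).deriv
      rwa [add_zero] at this
    have h2 := deriv_deriv_nonneg_of_isLocalMin (f := fun t => U (x + t, s)) (x₀ := 0)
      (Eventually.of_forall fun t => by simpa using hmin (x + t, s))
      (Ux_line hd x s 0).continuousAt
    rwa [e1, e2] at h2
  have hss : 0 ≤ Us (Us U) (x, s) := by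
    have e1 : deriv (fun t => U (x, s + t)) = fun t => Us U (x, s + t) := by
      funext t; exact (Us_line hd x s t).deriv
    have e2 : deriv (fun t => Us U (x, s + t)) 0 = Us (Us U) (x, s) := by
      have := (Us_line hds x s 0).deriv
      rwa [add_zero] at this
    have h2 := deriv_deriv_nonneg_of_isLocalMin (f := fun t => U (x, s + t)) (x₀ := 0)
      (Eventually.of_forall fun t => by simpa using hmin (x, s + t))
      (Us_line hd x s 0).continuousAt
    rwa [e1, e2] at h2
  have hs : Us U (x, s) = 0 := by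
    have h2 : IsLocalMin U (x, s) := Eventually.of_forall fun q => hmin q
    unfold Us
    rw [h2.fderiv_eq_zero]
    rfl
  unfold curv
  rw [hs]
  have h3 : 0 < Real.exp (-2 * U (x, s)) := Real.exp_pos _
  have h4 : 0 < Real.exp (2 * (x, s).2) * Ux (Ux U) (x, s) + Us (Us U) (x, s) - 0 + 1 := by
    have := mul_nonneg (Real.exp_pos (2 * (x, s).2)).le hxx
    linarith
  nlinarith [mul_pos h3 h4]

/-- inverse of the coordinates -/
noncomputable def zzInv (z : ℍ) : ℝ × ℝ := (z.re, Real.log z.im)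

theorem zz_zzInv (z : ℍ) : zz (zzInv z) = z := by
  apply UpperHalfPlane.ext
  apply Complex.ext
  · rfl
  · show Real.exp (Real.log z.im) = z.im
    exact Real.exp_log z.im_pos

theorem continuous_zzInv : Continuous zzInv := by
  unfold zzInv
  refine UpperHalfPlane.continuous_re.prodMk ?_
  exact UpperHalfPlane.continuous_im.log (fun z => z.im_pos.ne')

theorem Srf.curv_ne_aux (S : Srf) : ∃ p, curv (fun p => S.u (zz p)) p < 0 := by
  obtain ⟨C, hC, hcov⟩ := S.cocompact
  have hu : Continuous S.u := by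
    have e : S.u = (fun p => S.u (zz p)) ∘ zzInv := by
      funext z
      simp only [Function.comp_apply, zz_zzInv]
    rw [e]
    exact S.smooth.continuous.comp continuous_zzInv
  have hne : C.Nonempty := by
    obtain ⟨g, _, hg⟩ := hcov UpperHalfPlane.I
    exact ⟨_, hg⟩
  obtain ⟨z₀, _, hz₀⟩ := hC.exists_isMinOn hne hu.continuousOn
  refine ⟨zzInv z₀, curv_neg_of_min S.smooth ?_⟩
  intro q
  rw [zz_zzInv]
  obtain ⟨g, hg, hgC⟩ := hcov (zz q)
  rw [← S.inv g hg (zz q)]
  exact hz₀ hgC

end H65.Flat
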