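import Pool.Agent.H66.Flat.BridgeA
import Pool.Agent.H66.Flat.CurvNe

/-! # Bounds for the conformal factor and its hyperbolic gradient (helper66) -/

namespace H65.Flat

open MeasureTheory Set Filter
open scoped UpperHalfPlane MatrixGroups ENNReal Topology

/-- Möbius map on `ℂ` -/
noncomputable def mob (g : SL(2, ℝ)) (z : ℂ) : ℂ :=
  ((g 0 0 : ℝ) * z + (g 0 1 : ℝ)) / ((g 1 0 : ℝ) * z + (g 1 1 : ℝ))

/-- its derivative -/
noncomputable def mobD (g : SL(2, ℝ)) (z : ℂ) : ℂ := 1 / ((g 1 0 : ℝ) * z + (g 1 1 : ℝ)) ^ 2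

theorem mob_den_ne (g : SL(2, ℝ)) {z : ℂ} (hz : 0 < z.im) :
    ((g 1 0 : ℝ) : ℂ) * z + (g 1 1 : ℝ) ≠ 0 := by
  intro h
  have h1 := congrArg Complex.im h
  have h2 := congrArg Complex.re h
  simp at h1 h2
  have hdet : g 0 0 * g 1 1 - g 0 1 * g 1 0 = 1 := by
    have := g.det_coe
    rwa [Matrix.det_fin_two] at this
  rcases h1 with h1 | h1
  · rw [h1] at h2 hdet
    simp at h2
    rw [h2] at hdet
    simp at hdet
  · exact hz.ne' h1

theorem mob_coe (g : SL(2, ℝ)) (z : ℍ) : ((g • z : ℍ) : ℂ) = mob g z := by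
  rw [UpperHalfPlane.coe_specialLinearGroup_apply]
  rfl

theorem mob_hasDerivAt (g : SL(2, ℝ)) {z : ℂ} (hz : 0 < z.im) :
    HasDerivAt (mob g) (mobD g z) z := by
  have hden := mob_den_ne g hz
  have hdet : g 0 0 * g 1 1 - g 0 1 * g 1 0 = 1 := by
    have := g.det_coe
    rwa [Matrix.det_fin_two] at this
  have h1 : HasDerivAt (fun z : ℂ => ((g 0 0 : ℝ) : ℂ) * z + (g 0 1 : ℝ)) ((g 0 0 : ℝ) : ℂ) z := by
    simpa using ((hasDerivAt_id z).const_mul ((g 0 0 : ℝ) : ℂ)).add_const ((g 0 1 : ℝ) : ℂ)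
  have h2 : HasDerivAt (fun z : ℂ => ((g 1 0 : ℝ) : ℂ) * z + (g 1 1 : ℝ)) ((g 1 0 : ℝ) : ℂ) z := by
    simpa using ((hasDerivAt_id z).const_mul ((g 1 0 : ℝ) : ℂ)).add_const ((g 1 1 : ℝ) : ℂ)
  refine (h1.div h2 hden).congr_deriv ?_
  unfold mobD
  congr 1
  have hdet' : ((g 0 0 : ℝ) : ℂ) * ((g 1 1 : ℝ) : ℂ) - ((g 0 1 : ℝ) : ℂ) * ((g 1 0 : ℝ) : ℂ) = 1 := by
    exact_mod_cast hdet
  linear_combination hdet'

/-- `im (g z) = im z * |g'(z)|` -/
theorem mob_im' (g : SL(2, ℝ)) {z : ℂ} (hz : 0 < z.im) : (mob g z).im = z.im * ‖mobD g z‖ := by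
  have hdet : g 0 0 * g 1 1 - g 0 1 * g 1 0 = 1 := by
    have := g.det_coe
    rwa [Matrix.det_fin_two] at this
  have hden := mob_den_ne g hz
  unfold mobD
  rw [norm_div, norm_one, norm_pow, ← Complex.normSq_eq_norm_sq]
  unfold mob
  rw [Complex.div_im]
  have hN : Complex.normSq (((g 1 0 : ℝ) : ℂ) * z + (g 1 1 : ℝ)) ≠ 0 := by
    rwa [Ne, Complex.normSq_eq_zero]
  rw [← sub_div, mul_one_div]
  congr 1
  simp
  linear_combination z.im * hdet

theorem mob_im_pos (g : SL(2, ℝ)) {z : ℂ} (hz : 0 < z.im) : 0 < (mob g z).im := by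
  rw [mob_im' g hz]
  apply mul_pos hz
  unfold mobD
  have := mob_den_ne g hz
  rw [norm_pos_iff]
  exact div_ne_zero one_ne_zero (pow_ne_zero 2 this)

theorem mob_im (g : SL(2, ℝ)) (z : ℍ) : (g • z : ℍ).im = z.im * ‖mobD g z‖ := by
  have h := mob_im' g (z := z) z.im_pos
  rw [← mob_coe] at h
  exact h

/-- `u` as a function on `ℂ` -/
noncomputable def Srf.gg (S : Srf) (z : ℂ) : ℝ := S.u (UpperHalfPlane.ofComplex z)

namespace Srf

variable (S : Srf)

theorem gg_eq {z : ℂ} (hz : 0 < z.im) : S.gg z = S.u (zz (z.re, Real.log z.im)) := by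
  unfold gg
  congr 1
  apply UpperHalfPlane.ext
  rw [UpperHalfPlane.ofComplex_apply_of_im_pos hz]
  apply Complex.ext
  · rfl
  · show z.im = Real.exp (Real.log z.im)
    rw [Real.exp_log hz]

theorem isOpen_H : IsOpen {z : ℂ | 0 < z.im} := isOpen_lt continuous_const Complex.continuous_im

theorem gg_contDiffAt {z : ℂ} (hz : 0 < z.im) : ContDiffAt ℝ (⊤ : ℕ∞) S.gg z := by
  have h1 : ContDiffAt ℝ (⊤ : ℕ∞) (fun z : ℂ => S.u (zz (z.re, Real.log z.im))) z := by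
    have h2 : ContDiffAt ℝ (⊤ : ℕ∞) (fun z : ℂ => (z.re, Real.log z.im)) z := by
      refine ContDiffAt.prodMk ?_ ?_
      · exact Complex.reCLM.contDiff.contDiffAt
      · exact ContDiffAt.log Complex.imCLM.contDiff.contDiffAt hz.ne'
    exact ContDiffAt.comp (g := fun p => S.u (zz p)) z
      (S.smooth.contDiffAt (x := (z.re, Real.log z.im))) h2
  apply h1.congr_of_eventuallyEq
  filter_upwards [isOpen_H.mem_nhds hz] with w hw
  exact S.gg_eq hw

theorem gg_psiC (p : ℝ × ℝ) : S.gg (psiC p) = S.u (zz p) := by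
  unfold gg
  rw [psiC_eq, UpperHalfPlane.ofComplex_apply]

theorem Ux_eq (p : ℝ × ℝ) : Ux (fun p => S.u (zz p)) p = fderiv ℝ S.gg (psiC p) 1 := by
  have h1 : 0 < (psiC p).im := by rw [psiC_im]; exact Real.exp_pos _
  have e : (fun p => S.u (zz p)) = fun p => S.gg (psiC p) := by
    funext p; rw [gg_psiC]
  unfold Ux
  rw [e]
  have h2 : HasFDerivAt (fun p => S.gg (psiC p)) ((fderiv ℝ S.gg (psiC p)).comp (fderiv ℝ psiC p)) p :=
    (((S.gg_contDiffAt h1).differentiableAt (by simp)).hasFDerivAt).comp p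
      ((psiC_smooth.differentiable (by simp)).differentiableAt.hasFDerivAt)
  rw [h2.fderiv, ContinuousLinearMap.comp_apply, psiC_fderiv_x]

theorem Us_eq (p : ℝ × ℝ) : Us (fun p => S.u (zz p)) p =
    Real.exp p.2 * fderiv ℝ S.gg (psiC p) Complex.I := by
  have h1 : 0 < (psiC p).im := by rw [psiC_im]; exact Real.exp_pos _
  have e : (fun p => S.u (zz p)) = fun p => S.gg (psiC p) := by
    funext p; rw [gg_psiC]
  unfold Us
  rw [e]
  have h2 : HasFDerivAt (fun p => S.gg (psiC p)) ((fderiv ℝ S.gg (psiC p)).comp (fderiv ℝ psiC p)) p :=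
    (((S.gg_contDiffAt h1).differentiableAt (by simp)).hasFDerivAt).comp p
      ((psiC_smooth.differentiable (by simp)).differentiableAt.hasFDerivAt)
  rw [h2.fderiv, ContinuousLinearMap.comp_apply, psiC_fderiv_s, map_smul, smul_eq_mul]

theorem gg_mob {g : SL(2, ℝ)} (hg : g ∈ S.Γ) {z : ℂ} (hz : 0 < z.im) :
    S.gg (mob g z) = S.gg z := by
  unfold gg
  have h1 : UpperHalfPlane.ofComplex z = ⟨z, hz⟩ := UpperHalfPlane.ofComplex_apply_of_im_pos hz
  have h2 : UpperHalfPlane.ofComplex (mob g z) = g • (⟨z, hz⟩ : ℍ) := by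
    rw [UpperHalfPlane.ofComplex_apply_of_im_pos (mob_im_pos g hz)]
    apply UpperHalfPlane.ext
    rw [mob_coe]
  rw [h1, h2, S.inv g hg]

/-- transformation of the derivative -/
theorem fderiv_gg_mob {g : SL(2, ℝ)} (hg : g ∈ S.Γ) {z : ℂ} (hz : 0 < z.im) (w : ℂ) :
    fderiv ℝ S.gg z w = fderiv ℝ S.gg (mob g z) (mobD g z * w) := by
  have h1 : HasFDerivAt S.gg (fderiv ℝ S.gg (mob g z)) (mob g z) :=
    ((S.gg_contDiffAt (mob_im_pos g hz)).differentiableAt (by simp)).hasFDerivAt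
  have h2 : HasFDerivAt (mob g)
      ((ContinuousLinearMap.toSpanSingleton ℂ (mobD g z)).restrictScalars ℝ) z :=
    (mob_hasDerivAt g hz).hasFDerivAt.restrictScalars ℝ
  have h3 := h1.comp z h2
  have h4 : S.gg ∘ mob g =ᶠ[𝓝 z] S.gg := by
    filter_upwards [isOpen_H.mem_nhds hz] with w hw
    exact S.gg_mob hg hw
  have h5 : fderiv ℝ (S.gg ∘ mob g) z = fderiv ℝ S.gg z := h4.fderiv_eq
  rw [h3.fderiv] at h5
  rw [← h5]
  simp only [ContinuousLinearMap.comp_apply, ContinuousLinearMap.coe_restrictScalars',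
    ContinuousLinearMap.toSpanSingleton_apply, smul_eq_mul]
  rw [mul_comm w]

theorem gg_bound : ∃ C : ℝ, ∀ z : ℂ, 0 < z.im → ∀ w : ℂ, |z.im * fderiv ℝ S.gg z w| ≤ C * ‖w‖ := by
  obtain ⟨K, hK, hcov⟩ := S.cocompact
  have hcont : Continuous fun z : ℍ => z.im * ‖fderiv ℝ S.gg (z : ℂ)‖ := by
    apply UpperHalfPlane.continuous_im.mul
    apply Continuous.norm
    rw [continuous_iff_continuousAt]
    intro z
    have h1 : ContDiffAt ℝ 0 (fderiv ℝ S.gg) (z : ℂ) :=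
      (S.gg_contDiffAt z.im_pos).fderiv_right (by norm_cast)
    exact h1.continuousAt.comp UpperHalfPlane.continuous_coe.continuousAt
  obtain ⟨C, hC⟩ := hK.exists_bound_of_continuousOn hcont.continuousOn
  refine ⟨C, fun z hz w => ?_⟩
  obtain ⟨g, hg, hgK⟩ := hcov ⟨z, hz⟩
  have h1 := hC _ hgK
  rw [Real.norm_eq_abs, abs_of_nonneg (mul_nonneg (UpperHalfPlane.im_pos _).le (norm_nonneg _)),
    mob_im, mob_coe] at h1
  change z.im * ‖mobD g z‖ * ‖fderiv ℝ S.gg (mob g z)‖ ≤ C at h1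
  rw [abs_mul, abs_of_pos hz, S.fderiv_gg_mob hg hz]
  have h2 := (fderiv ℝ S.gg (mob g z)).le_opNorm (mobD g z * w)
  rw [Real.norm_eq_abs, norm_mul] at h2
  calc z.im * |fderiv ℝ S.gg (mob g z) (mobD g z * w)|
      ≤ z.im * (‖fderiv ℝ S.gg (mob g z)‖ * (‖mobD g z‖ * ‖w‖)) := by gcongr
    _ = z.im * ‖mobD g z‖ * ‖fderiv ℝ S.gg (mob g z)‖ * ‖w‖ := by ring
    _ ≤ C * ‖w‖ := by gcongr

theorem bounds_aux : ∃ C : ℝ, (∀ p, |S.u (zz p)| ≤ C) ∧
    (∀ p : ℝ × ℝ, |Real.exp p.2 * Ux (fun p => S.u (zz p)) p| ≤ C) ∧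
    (∀ p, |Us (fun p => S.u (zz p)) p| ≤ C) := by
  obtain ⟨K, hK, hcov⟩ := S.cocompact
  have hu : Continuous S.u := by
    have e : S.u = (fun p => S.u (zz p)) ∘ zzInv := by
      funext z
      simp only [Function.comp_apply, zz_zzInv]
    rw [e]
    exact S.smooth.continuous.comp continuous_zzInv
  obtain ⟨C0, hC0⟩ := hK.exists_bound_of_continuousOn hu.continuousOn
  obtain ⟨C1, hC1⟩ := S.gg_bound
  refine ⟨max C0 C1, fun p => ?_, fun p => ?_, fun p => ?_⟩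
  · obtain ⟨g, hg, hgK⟩ := hcov (zz p)
    rw [← S.inv g hg (zz p)]
    exact (hC0 _ hgK).trans (le_max_left _ _)
  · have h := hC1 (psiC p) (by rw [psiC_im]; exact Real.exp_pos _) 1
    rw [psiC_im] at h
    rw [S.Ux_eq]
    rw [norm_one, mul_one] at h
    exact h.trans (le_max_right _ _)
  · have h := hC1 (psiC p) (by rw [psiC_im]; exact Real.exp_pos _) Complex.I
    rw [psiC_im] at h
    rw [S.Us_eq]
    rw [Complex.norm_I, mul_one] at h
    exact h.trans (le_max_right _ _)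

end Srf

end H65.Flat
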