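import Pool.Agent.H65.Flat.Def
import Pool.Agent.H65.Flat.Srf

/-! # Bridge, part A: smoothness, compactness, curvature (helper66) -/

namespace H65.Flat

open Set Filter Topology
open scoped UpperHalfPlane MatrixGroups InnerProductSpace

/-- the coordinate map `(x,s) ↦ x + i e^s` -/
noncomputable def psiC (p : ℝ × ℝ) : ℂ := (p.1 : ℂ) + (Real.exp p.2 : ℝ) * Complex.I

theorem psiC_eq (p : ℝ × ℝ) : psiC p = ((zz p : ℍ) : ℂ) := by
  apply Complex.ext
  · simp [psiC, zz, -Complex.ofReal_exp]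
  · simp [psiC, zz, -Complex.ofReal_exp]

theorem psiC_im (p : ℝ × ℝ) : (psiC p).im = Real.exp p.2 := by simp [psiC, -Complex.ofReal_exp]

theorem psiC_smooth : ContDiff ℝ (⊤ : ℕ∞) psiC := by
  unfold psiC
  have h1 : ContDiff ℝ (⊤ : ℕ∞) fun p : ℝ × ℝ => (p.1 : ℂ) :=
    Complex.ofRealCLM.contDiff.comp contDiff_fst
  have h2 : ContDiff ℝ (⊤ : ℕ∞) fun p : ℝ × ℝ => ((Real.exp p.2 : ℝ) : ℂ) :=
    Complex.ofRealCLM.contDiff.comp (Real.contDiff_exp.comp contDiff_snd)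
  exact h1.add (h2.mul contDiff_const)

theorem psiC_fderiv_x (p : ℝ × ℝ) : fderiv ℝ psiC p (1, 0) = 1 := by
  have h : HasFDerivAt psiC (fderiv ℝ psiC p) (p.1 + 0, p.2) := by
    simpa using (psiC_smooth.differentiable (by simp)).differentiableAt.hasFDerivAt
  have h1 : HasDerivAt (fun t : ℝ => (p.1 + t, p.2)) ((1 : ℝ), (0 : ℝ)) 0 :=
    ((hasDerivAt_id 0).const_add p.1).prodMk (hasDerivAt_const _ _)
  have h2 := h.comp_hasDerivAt 0 h1
  have h3 : HasDerivAt (fun t : ℝ => psiC (p.1 + t, p.2)) 1 0 := by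
    unfold psiC
    have := (((hasDerivAt_id (0 : ℝ)).const_add p.1).ofReal_comp).add_const
      ((Real.exp p.2 : ℝ) * Complex.I)
    simpa using this
  exact h2.unique h3

theorem psiC_fderiv_s (p : ℝ × ℝ) : fderiv ℝ psiC p (0, 1) = (Real.exp p.2 : ℝ) • Complex.I := by
  have h : HasFDerivAt psiC (fderiv ℝ psiC p) (p.1, p.2 + 0) := by
    simpa using (psiC_smooth.differentiable (by simp)).differentiableAt.hasFDerivAt
  have h1 : HasDerivAt (fun t : ℝ => (p.1, p.2 + t)) ((0 : ℝ), (1 : ℝ)) 0 :=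
    (hasDerivAt_const _ _).prodMk ((hasDerivAt_id 0).const_add p.2)
  have h2 := h.comp_hasDerivAt 0 h1
  have h3 : HasDerivAt (fun t : ℝ => psiC (p.1, p.2 + t)) ((Real.exp p.2 : ℝ) • Complex.I) 0 := by
    unfold psiC
    have h4 : HasDerivAt (fun t : ℝ => Real.exp (p.2 + t)) (Real.exp p.2) 0 := by
      have := ((hasDerivAt_id (0 : ℝ)).const_add p.2).exp
      simpa using this
    have := ((h4.ofReal_comp).mul_const Complex.I).const_add (p.1 : ℂ)
    simpa using this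
  exact h2.unique h3

namespace Surface

variable (S : Surface)

/-- `u` as a function on `ℂ` -/
noncomputable def gg (z : ℂ) : ℝ := S.u (UpperHalfPlane.ofComplex z)

theorem gg_psiC (p : ℝ × ℝ) : S.gg (psiC p) = S.u (zz p) := by
  unfold gg
  rw [psiC_eq, UpperHalfPlane.ofComplex_apply]

theorem isOpen_H : IsOpen {z : ℂ | 0 < z.im} := isOpen_lt continuous_const Complex.continuous_im

theorem gg_contDiffAt {z : ℂ} (hz : 0 < z.im) : ContDiffAt ℝ (⊤ : ℕ∞) S.gg z :=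
  S.smooth.contDiffAt (isOpen_H.mem_nhds hz)

theorem smooth_zz : ContDiff ℝ (⊤ : ℕ∞) fun p => S.u (zz p) := by
  have e : (fun p => S.u (zz p)) = fun p => S.gg (psiC p) := by
    funext p; rw [gg_psiC]
  rw [e, contDiff_iff_contDiffAt]
  intro p
  have h1 : 0 < (psiC p).im := by rw [psiC_im]; exact Real.exp_pos _
  exact (S.gg_contDiffAt h1).comp p psiC_smooth.contDiffAt

theorem Ux_eq (p : ℝ × ℝ) : Ux (fun p => S.u (zz p)) p = fderiv ℝ S.gg (psiC p) 1 := by
  have h1 : 0 < (psiC p).im := by rw [psiC_im]; exact Real.exp_pos _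
  have e : (fun p => S.u (zz p)) = fun p => S.gg (psiC p) := by
    funext p; rw [gg_psiC]
  unfold Ux
  rw [e]
  have h2 : HasFDerivAt (fun p => S.gg (psiC p)) ((fderiv ℝ S.gg (psiC p)).comp (fderiv ℝ psiC p)) p :=
    (((S.gg_contDiffAt h1).differentiableAt (by simp)).hasFDerivAt).comp p
      ((psiC_smooth.differentiable (by simp)).differentiableAt.hasFDerivAt)
  rw [h2.fderiv, ContinuousLinearMap.comp_apply, psiC_fderiv_x]

theorem Us_eq (p : ℝ × ℝ) : Us (fun p => S.u (zz p)) p =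
    Real.exp p.2 * fderiv ℝ S.gg (psiC p) Complex.I := by
  have h1 : 0 < (psiC p).im := by rw [psiC_im]; exact Real.exp_pos _
  have e : (fun p => S.u (zz p)) = fun p => S.gg (psiC p) := by
    funext p; rw [gg_psiC]
  unfold Us
  rw [e]
  have h2 : HasFDerivAt (fun p => S.gg (psiC p)) ((fderiv ℝ S.gg (psiC p)).comp (fderiv ℝ psiC p)) p :=
    (((S.gg_contDiffAt h1).differentiableAt (by simp)).hasFDerivAt).comp p
      ((psiC_smooth.differentiable (by simp)).differentiableAt.hasFDerivAt)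
  rw [h2.fderiv, ContinuousLinearMap.comp_apply, psiC_fderiv_s, map_smul, smul_eq_mul]

theorem hasFDerivAt_fderiv_gg (p : ℝ × ℝ) (v : ℂ) :
    HasFDerivAt (fun q => fderiv ℝ S.gg (psiC q) v)
      (((ContinuousLinearMap.apply ℝ ℝ v).comp (fderiv ℝ (fderiv ℝ S.gg) (psiC p))).comp
        (fderiv ℝ psiC p)) p := by
  have h1 : 0 < (psiC p).im := by rw [psiC_im]; exact Real.exp_pos _
  have h2 : ContDiffAt ℝ 1 (fderiv ℝ S.gg) (psiC p) :=
    (S.gg_contDiffAt h1).fderiv_right (by norm_cast)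
  have h3 : HasFDerivAt (fderiv ℝ S.gg) (fderiv ℝ (fderiv ℝ S.gg) (psiC p)) (psiC p) :=
    (h2.differentiableAt (by norm_num)).hasFDerivAt
  have h4 : HasFDerivAt (fun q => fderiv ℝ S.gg (psiC q))
      ((fderiv ℝ (fderiv ℝ S.gg) (psiC p)).comp (fderiv ℝ psiC p)) p :=
    h3.comp p ((psiC_smooth.differentiable (by simp)).differentiableAt.hasFDerivAt)
  exact (ContinuousLinearMap.apply ℝ ℝ v).hasFDerivAt.comp p h4

theorem Uxx_eq (p : ℝ × ℝ) : Ux (Ux (fun p => S.u (zz p))) p =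
    fderiv ℝ (fderiv ℝ S.gg) (psiC p) 1 1 := by
  have e : Ux (fun p => S.u (zz p)) = fun p => fderiv ℝ S.gg (psiC p) 1 := by
    funext p; exact S.Ux_eq p
  rw [e]
  unfold Ux
  rw [(S.hasFDerivAt_fderiv_gg p 1).fderiv]
  simp only [ContinuousLinearMap.comp_apply, psiC_fderiv_x, ContinuousLinearMap.apply_apply]

theorem Uss_eq (p : ℝ × ℝ) : Us (Us (fun p => S.u (zz p))) p =
    Real.exp p.2 * fderiv ℝ S.gg (psiC p) Complex.I +
      Real.exp (2 * p.2) * fderiv ℝ (fderiv ℝ S.gg) (psiC p) Complex.I Complex.I := by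
  have e : Us (fun p => S.u (zz p)) = fun p => Real.exp p.2 * fderiv ℝ S.gg (psiC p) Complex.I := by
    funext p; exact S.Us_eq p
  rw [e]
  unfold Us
  have h1 : HasFDerivAt (fun p : ℝ × ℝ => Real.exp p.2)
      (Real.exp p.2 • ContinuousLinearMap.snd ℝ ℝ ℝ) p := hasFDerivAt_snd.exp
  have h2 := h1.mul (S.hasFDerivAt_fderiv_gg p Complex.I)
  have h3 := h2.fderiv
  change fderiv ℝ (fun p : ℝ × ℝ => Real.exp p.2 * fderiv ℝ S.gg (psiC p) Complex.I) p = _ at h3
  rw [h3]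
  simp only [_root_.add_apply, _root_.smul_apply,
    ContinuousLinearMap.comp_apply, psiC_fderiv_s, ContinuousLinearMap.apply_apply,
    ContinuousLinearMap.coe_snd', smul_eq_mul, map_smul, mul_one]
  rw [show (2 : ℝ) * p.2 = p.2 + p.2 by ring, Real.exp_add]
  ring

theorem laplacian_log_im {z₀ : ℂ} (hz : 0 < z₀.im) :
    Laplacian.laplacian (fun z : ℂ => Real.log z.im) z₀ = -(z₀.im ^ 2)⁻¹ := by
  rw [InnerProductSpace.laplacian_eq_iteratedFDeriv_complexPlane]
  simp only [iteratedFDeriv_two_apply]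
  have hL1 : ∀ z : ℂ, 0 < z.im → fderiv ℝ (fun z : ℂ => Real.log z.im) z = (z.im)⁻¹ • Complex.imCLM := by
    intro z hz
    exact (HasFDerivAt.log (Complex.imCLM.hasFDerivAt (x := z)) hz.ne').fderiv
  have hL2 : fderiv ℝ (fun z : ℂ => Real.log z.im) =ᶠ[𝓝 z₀] fun z => (z.im)⁻¹ • Complex.imCLM := by
    filter_upwards [isOpen_H.mem_nhds hz] with z hz
    exact hL1 z hz
  rw [hL2.fderiv_eq]
  have h1 : HasFDerivAt (fun z : ℂ => (z.im)⁻¹) (-(z₀.im ^ 2)⁻¹ • Complex.imCLM) z₀ := by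
    have := (hasDerivAt_inv hz.ne').comp_hasFDerivAt z₀ (Complex.imCLM.hasFDerivAt (x := z₀))
    exact this
  have h2 := h1.smul_const Complex.imCLM
  rw [h2.fderiv]
  simp

/-- (b3) the curvature in the coordinates `(x,s)` -/
theorem curv_eq (p : ℝ × ℝ) : curv (fun p => S.u (zz p)) p = S.K (zz p) := by
  have hz : 0 < (psiC p).im := by rw [psiC_im]; exact Real.exp_pos _
  have hlog : ContDiffAt ℝ 2 (fun z : ℂ => Real.log z.im) (psiC p) := by
    apply ContDiffAt.log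
    · exact Complex.imCLM.contDiff.contDiffAt
    · exact hz.ne'
  have hg : ContDiffAt ℝ 2 S.gg (psiC p) := (S.gg_contDiffAt hz).of_le (by norm_cast)
  have eσ : S.σ = S.gg - fun z : ℂ => Real.log z.im := rfl
  have h1 : Laplacian.laplacian S.σ (psiC p) =
      fderiv ℝ (fderiv ℝ S.gg) (psiC p) 1 1 + fderiv ℝ (fderiv ℝ S.gg) (psiC p) Complex.I Complex.I
        + (Real.exp p.2 ^ 2)⁻¹ := by
    rw [eσ, hg.laplacian_sub hlog, laplacian_log_im hz, psiC_im,
      InnerProductSpace.laplacian_eq_iteratedFDeriv_complexPlane]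
    simp only [iteratedFDeriv_two_apply]
    simp
  have h2 : S.σ (psiC p) = S.u (zz p) - p.2 := by
    rw [eσ]
    simp only [Pi.sub_apply, gg_psiC, psiC_im, Real.log_exp]
  unfold curv K
  rw [← psiC_eq, h1, h2, S.Uxx_eq, S.Uss_eq, S.Us_eq]
  have h3 : Real.exp (-2 * (S.u (zz p) - p.2)) = Real.exp (-2 * S.u (zz p)) * Real.exp p.2 ^ 2 := by
    rw [← Real.exp_nat_mul, ← Real.exp_add]
    congr 1
    push_cast
    ring
  have h4 : Real.exp (2 * p.2) = Real.exp p.2 ^ 2 := by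
    rw [← Real.exp_nat_mul]; norm_num
  rw [h3, h4]
  have h5 : Real.exp p.2 ≠ 0 := (Real.exp_pos _).ne'
  field_simp
  ring

/-- (b0) -/
theorem exists_compact : ∃ C : Set ℍ, IsCompact C ∧ ∀ z : ℍ, ∃ g ∈ S.Γ, g • z ∈ C := by
  classical
  have hcs := S.cocompact
  have hK : ∀ z : ℍ, ∃ K : Set ℍ, IsCompact K ∧ K ∈ 𝓝 z := fun z => exists_compact_mem_nhds z
  choose K hKc hKn using hK
  have hopen : IsOpenMap (Quotient.mk (MulAction.orbitRel S.Γ ℍ)) :=
    isOpenMap_quotient_mk'_mul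
  have hcov : (univ : Set (MulAction.orbitRel.Quotient S.Γ ℍ)) ⊆
      ⋃ z : ℍ, Quotient.mk (MulAction.orbitRel S.Γ ℍ) '' interior (K z) := by
    intro q _
    obtain ⟨z, rfl⟩ := Quotient.exists_rep q
    exact mem_iUnion.2 ⟨z, z, mem_interior_iff_mem_nhds.2 (hKn z), rfl⟩
  obtain ⟨t, ht⟩ := isCompact_univ.elim_finite_subcover
    (fun z => Quotient.mk (MulAction.orbitRel S.Γ ℍ) '' interior (K z))
    (fun z => hopen _ isOpen_interior) hcov
  refine ⟨⋃ z ∈ t, K z, t.isCompact_biUnion (fun z _ => hKc z), fun w => ?_⟩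
  have hw := ht (mem_univ (Quotient.mk (MulAction.orbitRel S.Γ ℍ) w))
  simp only [mem_iUnion] at hw
  obtain ⟨z, hz, w', hw', he⟩ := hw
  have h1 : MulAction.orbitRel S.Γ ℍ w' w := Quotient.exact he
  rw [MulAction.orbitRel_apply] at h1
  obtain ⟨g, hg⟩ := h1
  refine ⟨g.1, g.2, ?_⟩
  simp only [mem_iUnion]
  refine ⟨z, hz, ?_⟩
  have : (g.1 : SL(2, ℝ)) • w = w' := hg
  rw [this]
  exact interior_subset hw'

end Surface

end H65.Flat
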