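import Pool.Agent.H14.Flat.Tau
import Pool.Agent.H66.Flat.Disp
import Pool.Agent.H66.Flat.CurvNe

/-! # Cocompactness and wandering neighbourhoods of the deck group on the phase space (helper66) -/

namespace H65.Flat

open MeasureTheory Set Filter H14.Flat
open scoped UpperHalfPlane MatrixGroups ENNReal Topology

theorem continuous_base : Continuous base := by
  rw [UpperHalfPlane.isEmbedding_coe.continuous_iff]
  have e : (UpperHalfPlane.coe ∘ base) = fun v : T => (v.1 : ℂ) + ((Real.exp v.2.1 : ℝ) : ℂ) * Complex.I := by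
    funext v
    apply Complex.ext
    · simp [base, -Complex.ofReal_exp]
    · simp [base, -Complex.ofReal_exp]
  have h : Continuous fun v : T => (v.1 : ℂ) + ((Real.exp v.2.1 : ℝ) : ℂ) * Complex.I := by
    have h1 : Continuous fun v : T => (v.1 : ℂ) := Complex.continuous_ofReal.comp continuous_fst
    have h2 : Continuous fun v : T => ((Real.exp v.2.1 : ℝ) : ℂ) :=
      Complex.continuous_ofReal.comp (Real.continuous_exp.comp (continuous_fst.comp continuous_snd))
    exact h1.add (h2.mul continuous_const)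
  rw [← e] at h
  exact h

/-- a compact set meeting every orbit of the lifts -/
theorem Srf.cocompact_aux (S : Srf) : ∃ C : Set T, IsCompact C ∧
    ∀ v, ∃ g ∈ S.Γ, ∃ k : ℤ, tau g k v ∈ C := by
  obtain ⟨K, hK, hcov⟩ := S.cocompact
  have hpi : 0 < 2 * Real.pi := by positivity
  let φ : (ℝ × ℝ) × ℝ → T := fun q => (q.1.1, q.1.2, q.2)
  have hφ : Continuous φ := by fun_prop
  refine ⟨φ '' ((zzInv '' K) ×ˢ Icc 0 (2 * Real.pi)),
    ((hK.image continuous_zzInv).prod isCompact_Icc).image hφ, fun v => ?_⟩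
  obtain ⟨g, hg, hgK⟩ := hcov (base v)
  set θ : ℝ := v.2.2 + ang g (bp v) with hθ
  refine ⟨g, hg, -⌊θ / (2 * Real.pi)⌋, (bp (tau g 0 v), θ + 2 * Real.pi * ((-⌊θ / (2 * Real.pi)⌋ : ℤ) : ℝ)), ?_, ?_⟩
  · refine ⟨⟨g • base v, hgK, ?_⟩, ?_, ?_⟩
    · apply zz_inj
      rw [zz_zzInv, bp_tau, zz_mob]
      rfl
    · simp only
      push_cast
      have h1 := Int.floor_le (θ / (2 * Real.pi))
      rw [le_div_iff₀ hpi] at h1
      linarith
    · simp only
      push_cast
      have h1 := Int.lt_floor_add_one (θ / (2 * Real.pi))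
      rw [div_lt_iff₀ hpi] at h1
      linarith
  · rfl

/-- wandering neighbourhoods -/
theorem Srf.wandering_aux (S : Srf) (v : T) : ∃ O : Set T, IsOpen O ∧ v ∈ O ∧
    ∀ g ∈ S.Γ, ∀ k : ℤ, tau g k ≠ id → Disjoint (tau g k '' O) O := by
  obtain ⟨ι, hι, hdisp⟩ := S.disp_aux
  refine ⟨{w | dist (base w) (base v) < ι / 2 ∧ |w.2.2 - v.2.2| < Real.pi}, ?_, ?_, ?_⟩
  · apply IsOpen.and
    · exact isOpen_lt (continuous_base.dist continuous_const) continuous_const
    · exact isOpen_lt (by fun_prop) continuous_const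
  · refine ⟨by rw [dist_self]; positivity, by simp [Real.pi_pos]⟩
  · intro g hg k hne
    rw [Set.disjoint_left]
    rintro _ ⟨w, ⟨hw1, hw2⟩, rfl⟩ ⟨hw3, hw4⟩
    have h1 : dist (base w) (g • base w) < ι := by
      rw [base_tau] at hw3
      calc dist (base w) (g • base w) ≤ dist (base w) (base v) + dist (g • base w) (base v) :=
            dist_triangle_right _ _ _
        _ < ι := by linarith
    have h2 := hdisp g hg ⟨base w, h1⟩
    obtain ⟨m, hm⟩ := tau_triv h2 k
    rw [hm] at hw4
    have h3 : |2 * Real.pi * (m : ℝ)| < 2 * Real.pi := by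
      have h4 : 2 * Real.pi * (m : ℝ) = ((rot (2 * Real.pi * m) w).2.2 - v.2.2) - (w.2.2 - v.2.2) := by
        simp [rot]
      rw [h4]
      calc _ ≤ |(rot (2 * Real.pi * m) w).2.2 - v.2.2| + |w.2.2 - v.2.2| := abs_sub _ _
        _ < 2 * Real.pi := by linarith
    have h5 : m = 0 := by
      rw [abs_mul, abs_of_pos (by positivity : 0 < 2 * Real.pi)] at h3
      have h6 : |(m : ℝ)| < 1 := by
        by_contra hc
        push Not at hc
        nlinarith [Real.pi_pos]
      have h7 : |m| < 1 := by exact_mod_cast h6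
      exact Int.abs_lt_one_iff.1 h7
    apply hne
    funext x
    rw [hm, h5]
    simp [rot]

end H65.Flat
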