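import Pool.Agent.H65.Flat.Meas
import Pool.Agent.H66.Flat.Disp
import Pool.Agent.H66.Flat.CurvNe

/-! # The deck group, from the lifts of the elements of `Γ` (helper66) -/

namespace H65.Flat

open MeasureTheory Set Filter
open scoped UpperHalfPlane MatrixGroups ENNReal Topology

/-- derivative of a deck map in the frame -/
theorem Pre2.deck_frame (P : Pre2) {τ : T → T}
    (hd : Differentiable ℝ τ) (hflow : ∀ t v, P.Φ t (τ v) = τ (P.Φ t v))
    (hrot : ∀ a v, rot a (τ v) = τ (rot a v)) (v : T) :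
    fderiv ℝ τ v (fieldX P.U v) = fieldX P.U (τ v) ∧
    fderiv ℝ τ v (fieldH P.U v) = fieldH P.U (τ v) ∧ fderiv ℝ τ v fieldV = fieldV := by
  have hX : ∀ v, fderiv ℝ τ v (fieldX P.U v) = fieldX P.U (τ v) := by
    intro v
    have h1 : HasDerivAt (fun t => P.Φ t v) (fieldX P.U v) 0 := by
      simpa [P.Φ_zero] using P.Φ_deriv v 0
    have h2 : HasFDerivAt τ (fderiv ℝ τ v) (P.Φ 0 v) := by
      rw [P.Φ_zero]; exact (hd v).hasFDerivAt
    have h3 := h2.comp_hasDerivAt 0 h1
    have h4 : HasDerivAt (fun t => P.Φ t (τ v)) (fieldX P.U (τ v)) 0 := by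
      simpa [P.Φ_zero] using P.Φ_deriv (τ v) 0
    have h5 : (τ ∘ fun t => P.Φ t v) = fun t => P.Φ t (τ v) := by
      funext t; exact (hflow t v).symm
    rw [h5] at h3
    exact h3.unique h4
  have hV : ∀ v, fderiv ℝ τ v fieldV = fieldV := by
    intro v
    have h1 : ∀ v : T, HasDerivAt (fun a => rot a v) fieldV 0 := by
      intro v
      have : HasDerivAt (fun a : ℝ => ((v.1, v.2.1, v.2.2 + a) : T)) (0, 0, 1) 0 :=
        (hasDerivAt_const _ _).prodMk ((hasDerivAt_const _ _).prodMk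
          ((hasDerivAt_id 0).const_add v.2.2))
      exact this
    have h2 : HasFDerivAt τ (fderiv ℝ τ v) (rot 0 v) := by
      have : rot 0 v = v := by simp [rot]
      rw [this]; exact (hd v).hasFDerivAt
    have h3 := h2.comp_hasDerivAt 0 (h1 v)
    have h5 : (τ ∘ fun a => rot a v) = fun a => rot a (τ v) := by
      funext a; exact (hrot a v).symm
    rw [h5] at h3
    exact h3.unique (h1 (τ v))
  have hR : ∀ a v, fderiv ℝ τ (rot a v) = fderiv ℝ τ v := by
    intro a v
    have h1 : HasFDerivAt (fun v => τ (rot a v)) ((fderiv ℝ τ (rot a v)).comp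
        (ContinuousLinearMap.id ℝ T)) v := (hd (rot a v)).hasFDerivAt.comp v (rot_hasFDerivAt a v)
    have h2 : HasFDerivAt (fun v => rot a (τ v)) ((ContinuousLinearMap.id ℝ T).comp
        (fderiv ℝ τ v)) v := (rot_hasFDerivAt a (τ v)).comp v (hd v).hasFDerivAt
    have h3 : (fun v => τ (rot a v)) = fun v => rot a (τ v) := by
      funext v; exact (hrot a v).symm
    rw [h3] at h1
    have := h1.unique h2
    simpa using this
  refine ⟨hX v, ?_, hV v⟩
  rw [fieldH_eq, ← hR (Real.pi / 2) v, hX, ← hrot, fieldH_eq]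

/-- `H` and `V` are linearly independent -/
theorem HV_indep (U : ℝ × ℝ → ℝ) (v : T) {a b c d : ℝ}
    (h : a • fieldH U v + b • fieldV = c • fieldH U v + d • fieldV) : a = c ∧ b = d := by
  have h1 := congrArg Prod.fst h
  have h2 := congrArg (fun w : T => w.2.1) h
  have h3 := congrArg (fun w : T => w.2.2) h
  simp only [fieldH, fieldV, Prod.fst_add, Prod.smul_fst, Prod.snd_add, Prod.smul_snd,
    smul_eq_mul, mul_zero, add_zero, mul_one] at h1 h2 h3
  have hac : a = c := by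
    have e1 : 0 < Real.exp (v.2.1 - U (bp v)) := Real.exp_pos _
    have e2 : 0 < Real.exp (-U (bp v)) := Real.exp_pos _
    by_cases hs : Real.sin v.2.2 = 0
    · have hc : Real.cos v.2.2 ≠ 0 := by
        intro hc
        have := Real.sin_sq_add_cos_sq v.2.2
        rw [hs, hc] at this
        norm_num at this
      have : Real.exp (-U (bp v)) * Real.cos v.2.2 ≠ 0 := mul_ne_zero e2.ne' hc
      exact mul_right_cancel₀ this h2
    · have : -Real.exp (v.2.1 - U (bp v)) * Real.sin v.2.2 ≠ 0 :=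
        mul_ne_zero (neg_ne_zero.2 e1.ne') hs
      exact mul_right_cancel₀ this h1
  refine ⟨hac, ?_⟩
  rw [hac] at h3
  linarith

theorem Pre2.deck_J (P : Pre2) {τ : T → T}
    (hd : Differentiable ℝ τ) (hflow : ∀ t v, P.Φ t (τ v) = τ (P.Φ t v))
    (hrot : ∀ a v, rot a (τ v) = τ (rot a v)) (v : T) (y : ℝ) :
    P.J (τ v) y = P.J v y ∧ P.J1 (τ v) y = P.J1 v y := by
  have hΦd : ∀ v, HasFDerivAt (P.Φ y) (fderiv ℝ (P.Φ y) v) v := fun v =>
    ((P.flow_cont y).differentiable (by simp)).differentiableAt.hasFDerivAt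
  have h1 : HasFDerivAt (fun v => P.Φ y (τ v)) ((fderiv ℝ (P.Φ y) (τ v)).comp (fderiv ℝ τ v)) v :=
    (hΦd (τ v)).comp v (hd v).hasFDerivAt
  have h2 : HasFDerivAt (fun v => τ (P.Φ y v)) ((fderiv ℝ τ (P.Φ y v)).comp (fderiv ℝ (P.Φ y) v)) v :=
    (hd (P.Φ y v)).hasFDerivAt.comp v (hΦd v)
  have h3 : (fun v => P.Φ y (τ v)) = fun v => τ (P.Φ y v) := by
    funext v; exact hflow y v
  rw [h3] at h1
  have h4 := congrArg (fun L : T →L[ℝ] T => L (fieldH P.U v)) (h1.unique h2)
  simp only [ContinuousLinearMap.comp_apply] at h4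
  obtain ⟨_, hH, _⟩ := P.deck_frame hd hflow hrot v
  obtain ⟨_, hH', hV'⟩ := P.deck_frame hd hflow hrot (P.Φ y v)
  rw [hH, P.dH, P.dH, map_add, map_smul, map_smul, hH', hV', hflow] at h4
  exact HV_indep P.U _ h4

theorem Pre2.deck_curv (P : Pre2) {τ : T → T}
    (hd : Differentiable ℝ τ) (hflow : ∀ t v, P.Φ t (τ v) = τ (P.Φ t v))
    (hrot : ∀ a v, rot a (τ v) = τ (rot a v)) (v : T) :
    curv P.U (bp (τ v)) = curv P.U (bp v) := by
  have h1 := P.J1_deriv (τ v) 0
  have h2 := P.J1_deriv v 0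
  have h3 : P.J1 (τ v) = P.J1 v := by
    funext y; exact (P.deck_J hd hflow hrot v y).2
  rw [h3] at h1
  have h4 := h1.unique h2
  rw [P.Φ_zero, P.Φ_zero, P.J_zero, P.J_zero] at h4
  linarith

end H65.Flat
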